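import Pool.Agent.H17.VG.TargetsE
import Pool.Agent.H27.LV.Curve

/-!
# MP_70ba79_ag: module HP (heights do not depend on the normalisation)
-/

set_option autoImplicit false

namespace Pool.Agent.H77.VG

open SC Pool.Agent.H27.LV Pool.Agent.H17.VG

lemma ord_div' {k K : Type} [Field k] [Field K] [Algebra k K] (v : DV k K) {x y : K}
    (hx : x ≠ 0) (hy : y ≠ 0) : v.ord (x / y) = v.ord x - v.ord y := by
  have h := v.ord_mul (x / y) y (div_ne_zero hx hy) hy
  rw [div_mul_cancel₀ x hy] at h
  omega

lemma po_le {k K : Type} [Field k] [Field K] [Algebra k K] {κ : Type} [Fintype κ] (P : κ → K)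
    {a b : κ} (ha : P a ≠ 0) (hb : P b ≠ 0) (v : DV k K) :
    (poleOrder v (fun c => P c / P a) : ℤ) ≤
      poleOrder v (fun c => P c / P b) + v.ord (P a) - v.ord (P b) := by
  have h0 : ∀ c, (-(v.ord (P c / P b))).toNat ≤ poleOrder v (fun c => P c / P b) := by
    intro c
    unfold poleOrder
    exact Finset.le_sup (f := fun i => (-(v.ord (P i / P b))).toNat) (Finset.mem_univ c)
  have h1 : 0 ≤ (poleOrder v (fun c => P c / P b) : ℤ) + v.ord (P a) - v.ord (P b) := by
    have h2 := h0 a
    rw [ord_div' v ha hb] at h2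
    omega
  obtain ⟨t, ht⟩ := Int.eq_ofNat_of_zero_le h1
  rw [ht]
  have h3 : poleOrder v (fun c => P c / P a) ≤ t := by
    unfold poleOrder
    refine Finset.sup_le fun c _ => ?_
    show (-(v.ord (P c / P a))).toNat ≤ t
    by_cases hc : P c = 0
    · rw [hc, zero_div, v.ord_zero]
      simp
    · have h4 := h0 c
      rw [ord_div' v hc hb] at h4
      rw [ord_div' v hc ha]
      omega
  exact_mod_cast h3

theorem hp : T_HP := by
  intro k K _ _ _ _ _ _ htr κ _ P a b ha hb
  have hpo : ∀ v : DV k K, (poleOrder v (fun c => P c / P a) : ℤ) =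
      poleOrder v (fun c => P c / P b) + (v.ord (P a) - v.ord (P b)) := by
    intro v
    have h1 := po_le P ha hb v
    have h2 := po_le P hb ha v
    omega
  obtain ⟨hfa, hsa⟩ := pfm k K htr (P a)
  obtain ⟨hfb, hsb⟩ := pfm k K htr (P b)
  have hfpa := pfi k K htr κ fun c => P c / P a
  have hfpb := pfi k K htr κ fun c => P c / P b
  have hcast : ∀ z : κ → K, ((deg k z : ℕ) : ℤ) = ∑ᶠ v : DV k K, (poleOrder v z : ℤ) := by
    intro z
    unfold deg
    have hf := pfi k K htr κ z
    have h := (Nat.castAddMonoidHom ℤ).map_finsum (f := fun v : DV k K => poleOrder v z) hf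
    simpa using h
  have key : ((deg k (fun c => P c / P a) : ℕ) : ℤ) = (deg k (fun c => P c / P b) : ℕ) := by
    rw [hcast, hcast, finsum_congr hpo, finsum_add_distrib, finsum_sub_distrib, hsa, hsb]
    · simp
    · exact hfa
    · exact hfb
    · refine hfpb.subset ?_
      intro v hv
      simpa using hv
    · refine (hfa.union hfb).subset ?_
      intro v hv
      by_contra hcon
      apply hv
      simp only [Set.mem_union, Set.mem_ofPred_eq, not_or, not_not] at hcon
      simp only [hcon.1, hcon.2, sub_self]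
  exact_mod_cast key

end Pool.Agent.H77.VG
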