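import Pool.Agent.H17.VG.TargetsC
import Pool.Agent.H27.LV.Basic

/-!
# MP_70ba79_ag: module IP (forms which vanish at a point)
-/

set_option autoImplicit false

namespace Pool.Agent.H77.VG

open MvPolynomial SC Pool.Agent.H27.LV Pool.Agent.H17.VG

/-- products of a linear form vanishing at `x` and of a form, of degree `d` -/
noncomputable def WW {K : Type} [Field K] {n : ℕ} (x : Fin (n + 1) → K) (d : ℕ) :
    Submodule K (MvPolynomial (Fin (n + 1)) K) :=
  Submodule.span K {G | ∃ (ξ : Fin (n + 1) → K) (Q : MvPolynomial (Fin (n + 1)) K) (e : ℕ),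
    ∑ i, ξ i * x i = 0 ∧ Q.IsHomogeneous e ∧ e + 1 = d ∧ G = lin ξ * Q}

lemma X_mul_WW {K : Type} [Field K] {n : ℕ} (x : Fin (n + 1) → K) (d : ℕ) (i : Fin (n + 1))
    {G : MvPolynomial (Fin (n + 1)) K} (hG : G ∈ WW x d) : X i * G ∈ WW x (d + 1) := by
  unfold WW at hG ⊢
  induction hG using Submodule.span_induction with
  | mem G hG =>
    obtain ⟨ξ, Q, e, h1, h2, h3, rfl⟩ := hG
    apply Submodule.subset_span
    refine ⟨ξ, X i * Q, e + 1, h1, ?_, by omega, by ring⟩
    rw [add_comm e 1]
    exact (isHomogeneous_X K i).mul h2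
  | zero => rw [mul_zero]; exact Submodule.zero_mem _
  | add G G' _ _ h h' => rw [mul_add]; exact Submodule.add_mem _ h h'
  | smul c G _ h => rw [mul_smul_comm]; exact Submodule.smul_mem _ c h

lemma monomial_WW {K : Type} [Field K] {n : ℕ} (x ξ₀ : Fin (n + 1) → K)
    (hξ : ∑ i, ξ₀ i * x i = 1) : ∀ (d : ℕ) (s : Fin (n + 1) →₀ ℕ), s.degree = d →
    monomial s (1 : K) - (eval x (monomial s (1 : K))) • lin ξ₀ ^ d ∈ WW x d := by
  intro d
  induction d with
  | zero =>
    intro s hs
    rw [Finsupp.degree_eq_zero_iff] at hs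
    subst hs
    simp
  | succ d ih =>
    intro s hs
    obtain ⟨i, hi⟩ : ∃ i, s i ≠ 0 := by
      by_contra hcon
      push Not at hcon
      have : s = 0 := Finsupp.ext hcon
      rw [this] at hs
      simp at hs
    obtain ⟨s', rfl⟩ : ∃ s' : Fin (n + 1) →₀ ℕ, s = Finsupp.single i 1 + s' := by
      refine ⟨s - Finsupp.single i 1, ?_⟩
      rw [add_tsub_cancel_of_le]
      rw [Finsupp.single_le_iff]
      omega
    have hs' : s'.degree = d := by
      rw [map_add, Finsupp.degree_single] at hs
      omega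
    have h1 := ih s' hs'
    have h2 : monomial (Finsupp.single i 1 + s') (1 : K) = X i * monomial s' 1 := by
      rw [X, monomial_mul, one_mul]
    set c := eval x (monomial s' (1 : K)) with hc
    have h3 : X i - x i • lin ξ₀ = lin (fun j => (if j = i then 1 else 0) - x i * ξ₀ j) := by
      unfold lin
      rw [Finset.smul_sum]
      simp only [C_sub, sub_mul, Finset.sum_sub_distrib, C_mul]
      congr 1
      · rw [Finset.sum_eq_single i]
        · simp
        · intro j _ hj
          simp [hj]
        · simp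
      · refine Finset.sum_congr rfl fun j _ => ?_
        rw [smul_eq_C_mul, mul_assoc]
    have h4 : ∑ j, ((if j = i then 1 else 0) - x i * ξ₀ j) * x j = 0 := by
      simp only [sub_mul, Finset.sum_sub_distrib, ite_mul, one_mul, zero_mul,
        Finset.sum_ite_eq', Finset.mem_univ, if_true, mul_assoc]
      rw [← Finset.mul_sum, hξ, mul_one, sub_self]
    have h5 : monomial (Finsupp.single i 1 + s') (1 : K) -
        eval x (monomial (Finsupp.single i 1 + s') (1 : K)) • lin ξ₀ ^ (d + 1) =
        X i * (monomial s' 1 - c • lin ξ₀ ^ d) +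
          c • (lin (fun j => (if j = i then 1 else 0) - x i * ξ₀ j) * lin ξ₀ ^ d) := by
      rw [← h3, h2, map_mul, eval_X, ← hc]
      simp only [smul_eq_C_mul, C_mul]
      ring
    rw [h5]
    refine Submodule.add_mem _ (X_mul_WW x d i h1) (Submodule.smul_mem _ c ?_)
    apply Submodule.subset_span
    refine ⟨_, _, d, h4, ?_, rfl, rfl⟩
    have h6 := (isHomogeneous_lin ξ₀).pow d
    rwa [one_mul] at h6

theorem ip : T_IP := by
  intro K _ n e x hx G hG hx0
  obtain ⟨i, hi⟩ : ∃ i, x i ≠ 0 := by
    by_contra hcon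
    push Not at hcon
    exact hx (funext hcon)
  have hξ : ∑ j, (fun j => if j = i then (x i)⁻¹ else 0) j * x j = 1 := by
    simp only [ite_mul, zero_mul, Finset.sum_ite_eq', Finset.mem_univ, if_true]
    exact inv_mul_cancel₀ hi
  have h1 : G = ∑ s ∈ G.support, coeff s G • (monomial s (1 : K) -
      (eval x (monomial s (1 : K))) • lin (fun j => if j = i then (x i)⁻¹ else 0) ^ (e + 1)) := by
    simp only [smul_sub, Finset.sum_sub_distrib, smul_smul, ← Finset.sum_smul]
    have h2 : ∑ s ∈ G.support, coeff s G * eval x (monomial s (1 : K)) = eval x G := by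
      conv_rhs => rw [← support_sum_monomial_coeff G]
      rw [map_sum]
      refine Finset.sum_congr rfl fun s _ => ?_
      rw [eval_monomial, eval_monomial, one_mul]
    rw [h2, hx0, zero_smul, sub_zero]
    conv_lhs => rw [← support_sum_monomial_coeff G]
    refine Finset.sum_congr rfl fun s _ => ?_
    rw [smul_monomial, smul_eq_mul, mul_one]
  have h3 : G ∈ WW x (e + 1) := by
    rw [h1]
    refine Submodule.sum_mem _ fun s hs => Submodule.smul_mem _ _ ?_
    apply monomial_WW x _ hξ
    by_contra hcon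
    exact (mem_support_iff.1 hs) (hG.coeff_eq_zero hcon)
  unfold WW at h3
  refine Submodule.span_mono ?_ h3
  rintro _ ⟨ξ, Q, e', h4, h5, h6, rfl⟩
  obtain rfl : e' = e := by omega
  exact ⟨ξ, Q, h4, h5, rfl⟩

end Pool.Agent.H77.VG
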